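import Pool.Agent.L7h60.PW.Wen
import Pool.Agent.L7h85.RL.Abs

/-!
# Project PW (helper85), NSU: the energies of the powers of `U ⊗ U*` and of `U`
-/

set_option autoImplicit false

namespace Pool.Agent.L7h73.PW

open Pool.Agent.L7h85.RL Pool.Agent.L7h32.RL

universe u

variable {Ob : Type u} (𝒮 : Sys Ob)

lemma h_dbl (U : Ob) (n : ℕ) :
    𝒮.h (𝒮.pw (𝒮.ten U (𝒮.dual U)) n) (𝒮.pw (𝒮.ten U (𝒮.dual U)) n) =
      𝒮.h (𝒮.pw U (2 * n + 1)) (𝒮.pw U (2 * n + 1)) := by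
  set p := cl 𝒮 (𝒮.pw U n) with hp
  have e1 : cl 𝒮 (𝒮.pw (𝒮.ten U (𝒮.dual U)) n) = p * sr p := by
    apply WithOne.coe_inj.1
    rw [cl_pw, cl_ten, WithOne.coe_mul, mul_pow, WithOne.coe_mul, hp, cl_pw, cl_srpw, cl_dual]
  have e2 : cl 𝒮 (𝒮.pw U (2 * n + 1)) = p * p := by
    apply WithOne.coe_inj.1
    rw [cl_pw, WithOne.coe_mul, hp, cl_pw, ← pow_add]
    congr 1
    ring
  rw [← hh_cl, ← hh_cl, e1, e2, hh_adj p (sr p), hh_adj p p, sr_sr, mul_assoc, mul_comm (sr p) p,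
    ← mul_assoc]

lemma h_succ (U : Ob) (n : ℕ) :
    𝒮.h (𝒮.pw U (n + 1)) (𝒮.pw U (n + 1)) ≤ 𝒮.dim U ^ 2 * 𝒮.h (𝒮.pw U n) (𝒮.pw U n) := by
  have h1 := Pool.Agent.L7h60.PW.scf_one 𝒮 (𝒮.pw U n) U
  have h2 : 𝒮.h (𝒮.pw U (n + 1)) (𝒮.pw U (n + 1)) =
      𝒮.h (𝒮.ten (𝒮.pw U n) U) (𝒮.ten (𝒮.pw U n) U) := by
    rw [← hh_cl, ← hh_cl]
    change hh (cl 𝒮 (𝒮.ten U (𝒮.pw U n))) (cl 𝒮 (𝒮.ten U (𝒮.pw U n))) = _
    rw [cl_ten, cl_ten, mul_comm]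
  rw [h2]
  exact h1

lemma h_three {U : Ob} {C : ℝ} (hC : 0 < C)
    (h : ∀ n : ℕ, (𝒮.h (𝒮.pw (𝒮.ten U (𝒮.dual U)) n) (𝒮.pw (𝒮.ten U (𝒮.dual U)) n) : ℝ) ≤
      C * (𝒮.dim (𝒮.ten U (𝒮.dual U)) : ℝ) ^ (2 * (n + 1)) / ((n : ℝ) + 1) ^ (3 / 2 : ℝ)) :
    ∃ C' : ℝ, 0 < C' ∧ ∀ m : ℕ, (𝒮.h (𝒮.pw U m) (𝒮.pw U m) : ℝ) ≤
      C' * (𝒮.dim U : ℝ) ^ (2 * (m + 1)) / ((m : ℝ) + 1) ^ (3 / 2 : ℝ) := by
  have hdim : (𝒮.dim (𝒮.ten U (𝒮.dual U)) : ℝ) = (𝒮.dim U : ℝ) ^ 2 := by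
    rw [𝒮.dim_ten, 𝒮.dim_dual]
    push_cast
    ring
  have h3 : (0 : ℝ) < 3 ^ (3 / 2 : ℝ) := by positivity
  have hd0 : (0 : ℝ) ≤ (𝒮.dim U : ℝ) := Nat.cast_nonneg _
  have key : ∀ (n m : ℕ), (m : ℝ) + 1 ≤ 3 * ((n : ℝ) + 1) → ∀ D : ℝ, 0 ≤ D →
      C * D / ((n : ℝ) + 1) ^ (3 / 2 : ℝ) ≤
        (1 + C * 3 ^ (3 / 2 : ℝ)) * D / ((m : ℝ) + 1) ^ (3 / 2 : ℝ) := by
    intro n m hnm D hD
    have hn : (0 : ℝ) < (n : ℝ) + 1 := by positivity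
    have hm : (0 : ℝ) < (m : ℝ) + 1 := by positivity
    have h4 : ((m : ℝ) + 1) ^ (3 / 2 : ℝ) ≤ 3 ^ (3 / 2 : ℝ) * ((n : ℝ) + 1) ^ (3 / 2 : ℝ) := by
      rw [← Real.mul_rpow (by norm_num) hn.le]
      exact Real.rpow_le_rpow hm.le hnm (by norm_num)
    have hnp : (0 : ℝ) < ((n : ℝ) + 1) ^ (3 / 2 : ℝ) := by positivity
    have hmp : (0 : ℝ) < ((m : ℝ) + 1) ^ (3 / 2 : ℝ) := by positivity
    rw [div_le_div_iff₀ hnp hmp]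
    calc C * D * ((m : ℝ) + 1) ^ (3 / 2 : ℝ) ≤
        C * D * (3 ^ (3 / 2 : ℝ) * ((n : ℝ) + 1) ^ (3 / 2 : ℝ)) :=
          mul_le_mul_of_nonneg_left h4 (by positivity)
      _ ≤ (1 + C * 3 ^ (3 / 2 : ℝ)) * D * ((n : ℝ) + 1) ^ (3 / 2 : ℝ) := by
          have : 0 ≤ D * ((n : ℝ) + 1) ^ (3 / 2 : ℝ) := by positivity
          nlinarith
  refine ⟨1 + C * 3 ^ (3 / 2 : ℝ), by positivity, fun m => ?_⟩
  rcases Nat.even_or_odd' m with ⟨n, hn | hn⟩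
  · rcases Nat.eq_zero_or_pos n with h0 | h0
    · subst h0
      have hm0 : m = 0 := by omega
      subst hm0
      have h5 : (𝒮.h U U : ℝ) ≤ (𝒮.dim U : ℝ) ^ 2 := by exact_mod_cast h_self_le 𝒮 U
      change (𝒮.h U U : ℝ) ≤ _
      have e0 : ((0 : ℕ) : ℝ) + 1 = 1 := by norm_num
      rw [e0, Real.one_rpow, div_one]
      calc (𝒮.h U U : ℝ) ≤ (𝒮.dim U : ℝ) ^ 2 := h5
        _ = 1 * (𝒮.dim U : ℝ) ^ (2 * (0 + 1)) := by ring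
        _ ≤ _ := by
          apply mul_le_mul_of_nonneg_right _ (by positivity)
          have : 0 ≤ C * 3 ^ (3 / 2 : ℝ) := by positivity
          linarith
    · obtain ⟨l, rfl⟩ : ∃ l, n = l + 1 := ⟨n - 1, by omega⟩
      have hm : m = 2 * l + 1 + 1 := by omega
      subst hm
      have h5 : (𝒮.h (𝒮.pw U (2 * l + 1 + 1)) (𝒮.pw U (2 * l + 1 + 1)) : ℝ) ≤
          (𝒮.dim U : ℝ) ^ 2 * (𝒮.h (𝒮.pw U (2 * l + 1)) (𝒮.pw U (2 * l + 1)) : ℝ) := by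
        exact_mod_cast h_succ 𝒮 U (2 * l + 1)
      have h6 := h l
      rw [h_dbl, hdim] at h6
      refine h5.trans ((mul_le_mul_of_nonneg_left h6 (by positivity)).trans ?_)
      refine le_trans (le_of_eq ?_) (key l (2 * l + 1 + 1) (by push_cast; linarith [Nat.cast_nonneg (α := ℝ) l])
        ((𝒮.dim U : ℝ) ^ (2 * (2 * l + 1 + 1 + 1))) (by positivity))
      rw [← pow_mul]
      ring
  · subst hn
    have h6 := h n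
    rw [h_dbl, hdim] at h6
    refine h6.trans ?_
    refine le_trans (le_of_eq ?_) (key n (2 * n + 1) (by push_cast; linarith [Nat.cast_nonneg (α := ℝ) n])
      ((𝒮.dim U : ℝ) ^ (2 * (2 * n + 1 + 1))) (by positivity))
    rw [← pow_mul]
    ring_nf

end Pool.Agent.L7h73.PW
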