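import Pool.Agent.L7h85.PW.Stm3
import Pool.Agent.L7h85.PW.Grx
import Pool.Agent.L7h73.PW.NsuA
import Pool.Agent.L7h73.RL.Nse
import Pool.Agent.L7h73.RL.Nsx
import Pool.Agent.L7h65.RL.Blt
import Pool.Agent.L7h32.RL.Ker

/-!
# Project PW (helper85), NSU: one summand of a variety has small energies
-/

set_option linter.unusedVariables false
set_option linter.unusedSectionVars false

open CategoryTheory AlgebraicGeometry CategoryTheory.Limits

universe u v

namespace Pool.Agent.L7h73.PW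

open Module

open Pool.Agent.H914 Pool.Agent.H447 Pool.Agent.W534 VarClass Obj WeilCohomology
open Pool.Agent.Y163 Pool.Agent.L7h85.RL Pool.Agent.R908 Pool.Agent.L7h89.RL Pool.Agent.L7h97.RL
open Pool.Agent.L7h85.PW
open Pool.Agent.L7h85.GR (eigs)

variable {k : Type u} [Field k] {𝒱 : VarClass k} {ops : CycleOps 𝒱}
  {W : WeilCohomology.{u, v} ops} {X Y Z : 𝒱.Obj} {p : ℕ} (Φ : FrobSystem W p)

/-- the decomposition of `s_GRX` with the idempotents -/
theorem grx_full (σ : W.K →+* ℂ) (hp : 1 < p) (hK : IsAlgClosed W.K)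
    (hRH : ∀ Z : 𝒱.Obj, RiemannHyp Φ σ Z) (𝒮 : Sys (GOb W)) (hG : IsGeo 𝒮) (X : 𝒱.Obj) :
    ∃ (n : ℕ) (e : Fin n → Module.End W.K (W.H X)) (hmem : ∀ i, e i ∈ KOp W X X 0)
      (hid : ∀ i, e i * e i = e i) (g : Fin n → (W.Kˣ ⧸ CommGroup.torsion W.Kˣ)),
      IsDec 𝒮 (GT Φ) (gone W X) (fun i => (⟨X, e i, hmem i, hid i⟩ : GOb W)) g ∧
      ∑ i, e i = 1 ∧ ∀ i j, i ≠ j → ∀ v ∈ genU Φ (X.prod X) X.dim,
        extOp W (e i) (adj (e j)) v = 0 := by
  have hMU : S_MU W := s_mu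
  have hpar := allPar Φ hp hK σ hRH
  set F := frob Φ X 1 with hF
  obtain ⟨s, hs, hsep⟩ := exists_level F
  have hGs : frob Φ X s = F ^ s := by rw [hF, ← frob_mul_eq, one_mul]
  have hFmem : frob Φ X s ∈ KAlg W X := map_mem_KOp _
  obtain ⟨n, l, P, hinj, hl, hne, hid, hor, hsum, hnil⟩ := exists_spectral' (frob Φ X s)
  have hroot : ∀ i, ∃ ν, F.HasEigenvalue ν ∧ ν ^ s = l i := by
    intro i
    have h1 := (hl (l i)).2 ⟨i, rfl⟩
    rw [hGs] at h1
    exact (hasEigenvalue_pow F hs _).1 h1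
  choose ν₀ hν₀ hνl using hroot
  have hF0 : ∀ {a : W.K}, F.HasEigenvalue a → a ≠ 0 := by
    intro a ha h0
    obtain ⟨x, hx⟩ := ha.exists_hasEigenvector
    have h1 := hx.apply_eq_smul
    rw [h0, zero_smul] at h1
    exact hx.2 (map_iter_injective Φ 1 (h1.trans (map_zero _).symm))
  set ν : Fin n → W.Kˣ := fun i => Units.mk0 (ν₀ i) (hF0 (hν₀ i)) with hν
  have hmem : ∀ i, Polynomial.aeval (frob Φ X s) (P i) ∈ KOp W X X 0 := fun i => aeval_mem hFmem _
  set U : Fin n → GOb W := fun i => ⟨X, Polynomial.aeval (frob Φ X s) (P i), hmem i, hid i⟩ with hU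
  have hWU : ∀ i, Wt Φ X (U i) (ν i) := by
    intro i
    refine ⟨s, s, hs, hs, rfl, ?_, ?_⟩
    · change Commute (frob Φ X s) (Polynomial.aeval (frob Φ X s) (P i))
      have : Commute (Polynomial.aeval (frob Φ X s) (Polynomial.X : Polynomial W.K))
          (Polynomial.aeval (frob Φ X s) (P i)) := by
        rw [commute_iff_eq, ← map_mul, ← map_mul, mul_comm]
      rwa [Polynomial.aeval_X] at this
    · change IsNilpotent ((frob Φ X s - ((Units.mk0 (ν₀ i) (hF0 (hν₀ i)) : W.Kˣ) : W.K) ^ s •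
        (1 : Module.End W.K (W.H X))) * Polynomial.aeval (frob Φ X s) (P i))
      rw [Units.val_mk0, hνl]
      exact hnil i
  set g : Fin n → (W.Kˣ ⧸ CommGroup.torsion W.Kˣ) := fun i => QuotientGroup.mk (ν i) with hg
  -- words
  have hword : ∀ (m : ℕ) (x : Fin (m + 1) → Fin n), Wt Φ X (wd 𝒮 U m x) (∏ i, ν (x i)) ∧
      (wd 𝒮 U m x).Z.dim = (m + 1) * X.dim := by
    intro m
    induction m with
    | zero =>
      intro x
      refine ⟨?_, ?_⟩
      · rw [Fin.prod_univ_one]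
        exact hWU _
      · change X.dim = _
        ring
    | succ m ih =>
      intro x
      obtain ⟨h1, h2⟩ := ih (Fin.tail x)
      have e1 : wd 𝒮 U (m + 1) x = gten (U (x 0)) (wd 𝒮 U m (Fin.tail x)) := hG.ten_eq _ _
      rw [e1]
      refine ⟨?_, ?_⟩
      · rw [Fin.prod_univ_succ]
        exact Wt.mul Φ (hWU (x 0)) h1
      · change (X.prod (wd 𝒮 U m (Fin.tail x)).Z).dim = _
        rw [dim_prod, h2]
        ring
  have hp0 : ((p : W.K)) ≠ 0 := cast_p_ne Φ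
  have hpair : ∀ (m : ℕ) (x y : Fin (m + 1) → Fin n),
      (𝒮.ten (wd 𝒮 U m x) (𝒮.dual (wd 𝒮 U m y))).Z.dim = 2 * ((m + 1) * X.dim) ∧
      Wt Φ X (𝒮.ten (wd 𝒮 U m x) (𝒮.dual (wd 𝒮 U m y)))
        ((∏ i, ν (x i)) * (Units.mk0 ((p : W.K) ^ (Φ.e X * ((m + 1) * X.dim)))
          (pow_ne_zero _ hp0) * (∏ i, ν (y i))⁻¹)) := by
    intro m x y
    rw [hG.dual_eq, hG.ten_eq]
    obtain ⟨h1, h2⟩ := hword m x
    obtain ⟨h3, h4⟩ := hword m y
    refine ⟨?_, ?_⟩
    · change ((wd 𝒮 U m x).Z.prod (wd 𝒮 U m y).Z).dim = _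
      rw [dim_prod, h2, h4]
      ring
    · refine Wt.mul Φ h1 (wt_dual Φ h3 ?_)
      rw [Units.val_mk0, h4]
  have hkt : ∀ (m : ℕ) (x y : Fin (m + 1) → Fin n), ∏ i, g (x i) = ∏ i, g (y i) ↔
      ∃ N, 0 < N ∧ (((∏ i, ν (x i)) * (Units.mk0 ((p : W.K) ^ (Φ.e X * ((m + 1) * X.dim)))
          (pow_ne_zero _ hp0) * (∏ i, ν (y i))⁻¹) : W.Kˣ) : W.K) ^ N =
        (p : W.K) ^ (Φ.e X * ((m + 1) * X.dim) * N) := by
    intro m x y
    have e1 : ∀ x : Fin (m + 1) → Fin n, ∏ i, g (x i) =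
        QuotientGroup.mk (∏ i, ν (x i)) := by
      intro x
      rw [hg]
      exact (map_prod (QuotientGroup.mk' (CommGroup.torsion W.Kˣ)) (fun i => ν (x i))
        Finset.univ).symm
    rw [e1, e1, Pool.Agent.L7h94.SI.kt_eq]
    refine exists_congr fun N => and_congr_right fun _ => ?_
    set a := ∏ i, ν (x i)
    set b := ∏ i, ν (y i)
    set Q : W.Kˣ := Units.mk0 ((p : W.K) ^ (Φ.e X * ((m + 1) * X.dim))) (pow_ne_zero _ hp0) with hQ
    have e2 : (p : W.K) ^ (Φ.e X * ((m + 1) * X.dim) * N) = ((Q ^ N : W.Kˣ) : W.K) := by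
      rw [hQ, Units.val_pow_eq_pow_val, Units.val_mk0, ← pow_mul]
    rw [e2, ← Units.val_pow_eq_pow_val, Units.val_inj, mul_left_comm, mul_pow, mul_eq_left,
      mul_pow, inv_pow, mul_inv_eq_one]
  have hginj : Function.Injective g := by
    intro i j hij
    have h1 : (QuotientGroup.mk (ν i) : W.Kˣ ⧸ CommGroup.torsion W.Kˣ) =
      QuotientGroup.mk (ν j) := hij
    rw [Pool.Agent.L7h94.SI.kt_eq] at h1
    obtain ⟨N, hN, h2⟩ := h1
    apply hinj
    rw [← hνl, ← hνl]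
    refine hsep _ _ (hν₀ i) (hν₀ j) ⟨N, hN, ?_⟩
    have h3 := congrArg Units.val h2
    rw [Units.val_pow_eq_pow_val, Units.val_pow_eq_pow_val] at h3
    exact h3
  refine ⟨n, fun i => Polynomial.aeval (frob Φ X s) (P i), hmem, hid, g,
    ⟨?_, ?_, ?_, hginj, ?_, ?_⟩, hsum, ?_⟩
  · intro C
    simp only [hG.h_eq]
    exact gh_sum hMU hpar (Z := X) Finset.univ
      (fun a => Polynomial.aeval (frob Φ X s) (P a)) hmem hid hor C
      (gone W X).e hsum.symm (gone W X).mem (gone W X).idem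
  · rw [hG.dim_eq]
    simp only [hG.dim_eq]
    have h1 := L7h73.RL.finrank_sum (fun a => Polynomial.aeval (frob Φ X s) (P a)) (by
      intro i j
      by_cases h : i = j
      · rw [if_pos h, ← h, hid]
      · rw [if_neg h, hor i j h]) 1 (fun i => by rw [one_mul, mul_one])
    rw [one_mul, hsum] at h1
    exact h1
  · intro a
    rw [hG.dim_eq]
    change 0 < finrank W.K (LinearMap.range (Polynomial.aeval (frob Φ X s) (P a)))
    rw [Nat.pos_iff_ne_zero]
    intro h0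
    exact hne a (Submodule.finrank_eq_zero.1 h0)
  · intro m x y hxy
    obtain ⟨N, hN, h1⟩ := (hkt m x y).1 hxy
    obtain ⟨h2, h3⟩ := hpair m x y
    exact Wt.GT Φ hp hRH h3 h2 hN h1
  · intro m x y hxy S hS hT
    obtain ⟨h2, h3⟩ := hpair m x y
    rw [hG.h_eq]
    refine gh_zero Φ hMU hpar h2 (𝒮.ten (wd 𝒮 U m x) (𝒮.dual (wd 𝒮 U m y))).mem
      (𝒮.ten (wd 𝒮 U m x) (𝒮.dual (wd 𝒮 U m y))).idem (h3.kill Φ ?_) hT
    intro N hN h4
    exact hxy ((hkt m x y).2 ⟨N, hN, h4⟩)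
  · intro i j hij v hv
    obtain ⟨h2, h3⟩ := hpair 0 (fun _ => i) (fun _ => j)
    have h4 := h3.kill Φ (q := (0 + 1) * X.dim) (by
      intro N hN h4
      apply hij
      apply hginj
      have h5 := (hkt 0 (fun _ => i) (fun _ => j)).2 ⟨N, hN, h4⟩
      rwa [Fin.prod_univ_one, Fin.prod_univ_one] at h5)
    have h5 : 𝒮.ten (wd 𝒮 U 0 (fun _ => i)) (𝒮.dual (wd 𝒮 U 0 (fun _ => j))) =
        gten (U i) (gdual (U j)) := by
      rw [hG.dual_eq, hG.ten_eq]
      rfl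
    rw [h5, zero_add, one_mul] at h4
    exact h4 v hv

lemma adj_sum {ι : Type*} (s : Finset ι) (f : ι → Module.End W.K (W.H X)) :
    adj (∑ i ∈ s, f i) = ∑ i ∈ s, adj (f i) := by
  classical
  symm
  apply adj_unique
  intro a b
  rw [LinearMap.sum_apply, LinearMap.sum_apply, Finset.sum_mul, Finset.mul_sum, map_sum, map_sum]
  exact Finset.sum_congr rfl fun i _ => adj_spec _ _ _

theorem s_NSU (σ : W.K →+* ℂ) : S_NSU Φ σ := by
  intro hp hK hRH 𝒮 hG X hss
  obtain ⟨n, e, hmem, hid, g, hdec, hsum, hkill⟩ := grx_full Φ σ hp hK hRH 𝒮 hG X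
  set U : Fin n → GOb W := fun i => ⟨X, e i, hmem i, hid i⟩ with hU
  refine ⟨Fin n, inferInstance, U, g, hdec, ?_⟩
  have hd2 : (X.prod X).dim / 2 = X.dim := by
    rw [dim_prod]
    omega
  -- a summand with few Tate classes
  obtain ⟨a, ha⟩ : ∃ a, gtau Φ (gten (U a) (gdual (U a))) < gdim (gten (U a) (gdual (U a))) := by
    by_contra hcon
    push Not at hcon
    have hrange : ∀ a, LinearMap.range (extOp W (e a) (adj (e a))) ≤
        tsub Φ (X.prod X) X.dim := by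
      intro a
      have h1 := hcon a
      change finrank W.K (LinearMap.range (extOp W (e a) (adj (e a)))) ≤
        finrank W.K (tsub Φ (X.prod X) ((X.prod X).dim / 2) ⊓
          LinearMap.range (extOp W (e a) (adj (e a))) : Submodule W.K (W.H (X.prod X))) at h1
      rw [hd2] at h1
      have h2 := Submodule.eq_of_le_of_finrank_le (inf_le_right : tsub Φ (X.prod X) X.dim ⊓
        LinearMap.range (extOp W (e a) (adj (e a))) ≤ _) h1
      rw [← h2]
      exact inf_le_left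
    have hlt := L7h73.RL.s_NSX Φ σ hp hK hRH X hss
    apply absurd hlt
    rw [lt_iff_le_not_ge]
    rintro ⟨-, h⟩
    apply h
    intro v hv
    have h1 : v = extOp W (∑ i, e i) (adj (∑ j, e j)) v := by
      rw [hsum, adj_one, extOp_one, Module.End.one_apply]
    rw [h1, adj_sum, extOp_sum, LinearMap.sum_apply]
    refine Submodule.sum_mem _ fun i _ => ?_
    rw [extOp_sum', LinearMap.sum_apply]
    refine Submodule.sum_mem _ fun j _ => ?_
    by_cases hij : i = j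
    · subst hij
      exact hrange i ⟨v, rfl⟩
    · rw [hkill i j hij v hv]
      exact Submodule.zero_mem _
  have hten : 𝒮.ten (U a) (𝒮.dual (U a)) = gten (U a) (gdual (U a)) := by
    rw [hG.dual_eq, hG.ten_eq]
  have hGT : GT Φ (gten (U a) (gdual (U a))) := by
    have h1 := hdec.mem 0 (fun _ => a) (fun _ => a) rfl
    change GT Φ (𝒮.ten (U a) (𝒮.dual (U a))) at h1
    rwa [hten] at h1
  have hBLK : S_BLK.{v, v} := L7h65.RL.s_BLK
  have hKER : S_KER.{v, v} := L7h32.RL.s_KER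
  obtain ⟨C, hC, h⟩ := L7h73.RL.s_NSE Φ hBLK hKER σ hp hK hRH 𝒮 hG _ hGT ha
  refine ⟨a, h_three 𝒮 (U := U a) hC fun m => ?_⟩
  rw [hten, hG.dim_eq]
  exact h m

end Pool.Agent.L7h73.PW
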